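import Pool.Agent.SCC.Fin3

/-!
# A model of ZFC with a supercompact cardinal in which no proper inner model has the same cardinals

If ZFC with a supercompact cardinal has a model, then it has a model in which every inner model
(definable with parameters) with the same cardinals is the whole universe.

The model is a class forcing extension of a countable model of ZFC with a supercompact cardinal
`κ`: a homogeneous Easton support iteration of collapses, in which a class of bits coding every set
of ordinals of the ground model is coded into the sizes of the stages.  An inner model with the same
cardinals contains new collapses; by homogeneity it contains so many copies of them at a stage with
bit `1` that it can read the bits from its own cardinal arithmetic; hence it contains all sets of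
ordinals of the ground model, and then the generic filter is coded in it by the new collapses.  The
cardinal `κ` stays supercompact since the bits below `κ` are chosen with a Laver function.
-/

namespace Pool.Agent.Results.MP_7175d4_lc.NoProperInnerModel

open Pool.Agent.BVM Pool.Agent.SCC

universe u

/-- If some structure `(M, E)` is a model of ZFC with a supercompact cardinal, then there is a model
`(M', E')` of ZFC with a supercompact cardinal such that every inner model `N` of `(M', E')` all of
whose cardinals are cardinals of `(M', E')` is everything. -/
theorem result {M : Type u} (E : M → M → Prop) (hE : ZFC E) (hs : ∃ κ, Supercompact E κ) :
    ∃ (M' : Type) (E' : M' → M' → Prop), ZFC E' ∧ (∃ κ, Supercompact E' κ) ∧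
      ∀ N : M' → Prop, InnerModel E' N → SameCard E' N → ∀ x, N x :=
  exists_noProper E hE hs

end Pool.Agent.Results.MP_7175d4_lc.NoProperInnerModel
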